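import Mathlib

set_option autoImplicit false

namespace Pool.Agent.Results.MP_dbe012_pr.No

open MeasureTheory ProbabilityTheory Set Filter Topology
open scoped ENNReal

/-- Mean of one copy. -/
noncomputable def mu1 (ν : Measure ℝ) : ℝ := ∫ a, a ∂ν

/-- Mean of the minimum of two independent copies. -/
noncomputable def mu2 (ν : Measure ℝ) : ℝ := ∫ w : ℝ × ℝ, min w.1 w.2 ∂(ν.prod ν)

/-- Mean of the minimum of three independent copies. -/
noncomputable def mu3 (ν : Measure ℝ) : ℝ :=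
  ∫ w : ℝ × ℝ × ℝ, min w.1 (min w.2.1 w.2.2) ∂(ν.prod (ν.prod ν))

/-- The law taking the value `s` with probability `2/3` and `t` with probability `1/3`. -/
noncomputable def two (s t : ℝ) : Measure ℝ :=
  (2 / 3 : ℝ≥0∞) • Measure.dirac s + (1 / 3 : ℝ≥0∞) • Measure.dirac t

def m (a b c : ℝ) (w : ℝ × ℝ × ℝ) : ℝ := min (a + w.1) (min (b + w.2.1) (c + w.2.2))

lemma int_m (ν : Measure ℝ) [IsProbabilityMeasure ν] (h : Integrable (fun x : ℝ => x) ν)
    (a b c : ℝ) : Integrable (m a b c) (ν.prod (ν.prod ν)) := by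
  have h1 : ∀ a : ℝ, Integrable (fun x : ℝ => a + x) ν := fun a => (integrable_const a).add h
  exact ((h1 a).comp_fst _).inf
    (((((h1 b).comp_fst ν).inf ((h1 c).comp_snd ν))).comp_snd ν)

lemma map_eq (ν : Measure ℝ) [IsProbabilityMeasure ν] (a b c : ℝ) :
    (ν.map fun y => a + y).prod ((ν.map fun y => b + y).prod (ν.map fun y => c + y))
      = (ν.prod (ν.prod ν)).map
        (Prod.map (fun y => a + y) (Prod.map (fun y => b + y) (fun y => c + y))) := by
  rw [Measure.map_prod_map _ _ (by fun_prop) (by fun_prop),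
    Measure.map_prod_map _ _ (by fun_prop) (by fun_prop)]

lemma piece_int (ν : Measure ℝ) [IsProbabilityMeasure ν] (h : Integrable (fun x : ℝ => x) ν)
    (a b c : ℝ) : Integrable (fun w : ℝ × ℝ × ℝ => min w.1 (min w.2.1 w.2.2))
      ((ν.map fun y => a + y).prod ((ν.map fun y => b + y).prod (ν.map fun y => c + y))) := by
  rw [map_eq, integrable_map_measure (by fun_prop) (by fun_prop)]
  exact int_m ν h a b c

lemma piece (ν : Measure ℝ) [IsProbabilityMeasure ν] (a b c : ℝ) :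
    ∫ w : ℝ × ℝ × ℝ, min w.1 (min w.2.1 w.2.2)
      ∂((ν.map fun y => a + y).prod ((ν.map fun y => b + y).prod (ν.map fun y => c + y)))
      = ∫ w, m a b c w ∂(ν.prod (ν.prod ν)) := by
  rw [map_eq, integral_map (by fun_prop) (by fun_prop)]
  rfl

lemma conv_eq (ν : Measure ℝ) [IsProbabilityMeasure ν] (s t : ℝ) :
    (two s t).conv ν = (2 / 3 : ℝ≥0∞) • ν.map (fun y => s + y)
      + (1 / 3 : ℝ≥0∞) • ν.map (fun y => t + y) := by
  unfold two
  rw [Measure.add_conv, Measure.conv_smul_left, Measure.conv_smul_left, Measure.dirac_conv,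
    Measure.dirac_conv]

lemma ex2 (A B : Measure ℝ) [SFinite A] [SFinite B] (a b : ℝ≥0∞) {β : Type} [MeasurableSpace β]
    (P : Measure β) [SFinite P] : (a • A + b • B).prod P = a • A.prod P + b • B.prod P := by
  rw [Measure.add_prod, Measure.prod_smul_left, Measure.prod_smul_left]

lemma ex2' {α β : Type} [MeasurableSpace α] [MeasurableSpace β] (A B : Measure α) [SFinite A]
    [SFinite B] (a b : ℝ≥0∞) (P : Measure β) [SFinite P] :
    P.prod (a • A + b • B) = a • P.prod A + b • P.prod B := by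
  rw [Measure.prod_add, Measure.prod_smul_right, Measure.prod_smul_right]

lemma ex3 (A B P : Measure ℝ) [SFinite A] [SFinite B] [SFinite P] (a b : ℝ≥0∞) :
    P.prod ((a • A + b • B).prod (a • A + b • B)) =
      a • a • P.prod (A.prod A) + a • b • P.prod (A.prod B)
        + (b • a • P.prod (B.prod A) + b • b • P.prod (B.prod B)) := by
  have h1 : ∀ (C : Measure ℝ) [SFinite C], P.prod (C.prod (a • A + b • B)) =
      a • P.prod (C.prod A) + b • P.prod (C.prod B) := by
    intro C _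
    have := ex2' (C.prod A) (C.prod B) a b P
    rw [← this]
    congr 1
    exact ex2' A B a b C
  have := ex2' (A.prod (a • A + b • B)) (B.prod (a • A + b • B)) a b P
  rw [h1, h1, smul_add, smul_add] at this
  rw [← this]
  congr 1
  exact ex2 A B a b _

lemma ex4 (A B : Measure ℝ) [SFinite A] [SFinite B] (a b : ℝ≥0∞) :
    (a • A + b • B).prod ((a • A + b • B).prod (a • A + b • B)) =
      a • (a • a • A.prod (A.prod A) + a • b • A.prod (A.prod B)
        + (b • a • A.prod (B.prod A) + b • b • A.prod (B.prod B)))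
      + b • (a • a • B.prod (A.prod A) + a • b • B.prod (A.prod B)
        + (b • a • B.prod (B.prod A) + b • b • B.prod (B.prod B))) := by
  haveI : SFinite (a • A + b • B) := inferInstance
  haveI : SFinite ((a • A + b • B).prod (a • A + b • B)) := inferInstance
  rw [← ex3, ← ex3]
  exact ex2 A B a b _

lemma split8 {α : Type} [MeasurableSpace α] (f : α → ℝ) (M1 M2 M3 M4 M5 M6 M7 M8 : Measure α)
    (h1 : Integrable f M1) (h2 : Integrable f M2) (h3 : Integrable f M3) (h4 : Integrable f M4)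
    (h5 : Integrable f M5) (h6 : Integrable f M6) (h7 : Integrable f M7) (h8 : Integrable f M8) :
    ∫ x, f x ∂(M1 + M2 + (M3 + M4) + (M5 + M6 + (M7 + M8))) =
      ∫ x, f x ∂M1 + ∫ x, f x ∂M2 + (∫ x, f x ∂M3 + ∫ x, f x ∂M4)
        + (∫ x, f x ∂M5 + ∫ x, f x ∂M6 + (∫ x, f x ∂M7 + ∫ x, f x ∂M8)) := by
  rw [integral_add_measure ((h1.add_measure h2).add_measure (h3.add_measure h4))
      ((h5.add_measure h6).add_measure (h7.add_measure h8)),
    integral_add_measure (h1.add_measure h2) (h3.add_measure h4),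
    integral_add_measure (h5.add_measure h6) (h7.add_measure h8),
    integral_add_measure h1 h2, integral_add_measure h3 h4, integral_add_measure h5 h6,
    integral_add_measure h7 h8]

lemma comb8 {α : Type} [MeasurableSpace α] (M : Measure α) (g1 g2 g3 g4 g5 g6 g7 g8 : α → ℝ)
    (h1 : Integrable g1 M) (h2 : Integrable g2 M) (h3 : Integrable g3 M) (h4 : Integrable g4 M)
    (h5 : Integrable g5 M) (h6 : Integrable g6 M) (h7 : Integrable g7 M) (h8 : Integrable g8 M) :
    Integrable (fun w => (8 * g1 w + 4 * g2 w + 4 * g3 w + 2 * g4 w + 4 * g5 w + 2 * g6 w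
      + 2 * g7 w + g8 w) / 27) M ∧
    ∫ w, (8 * g1 w + 4 * g2 w + 4 * g3 w + 2 * g4 w + 4 * g5 w + 2 * g6 w
      + 2 * g7 w + g8 w) / 27 ∂M = (8 * ∫ w, g1 w ∂M + 4 * ∫ w, g2 w ∂M + 4 * ∫ w, g3 w ∂M
      + 2 * ∫ w, g4 w ∂M + 4 * ∫ w, g5 w ∂M + 2 * ∫ w, g6 w ∂M + 2 * ∫ w, g7 w ∂M
      + ∫ w, g8 w ∂M) / 27 := by
  have a1 : Integrable (fun w => 8 * g1 w) M := h1.const_mul 8
  have a2 : Integrable (fun w => 8 * g1 w + 4 * g2 w) M := a1.add (h2.const_mul 4)
  have a3 : Integrable (fun w => 8 * g1 w + 4 * g2 w + 4 * g3 w) M := a2.add (h3.const_mul 4)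
  have a4 : Integrable (fun w => 8 * g1 w + 4 * g2 w + 4 * g3 w + 2 * g4 w) M :=
    a3.add (h4.const_mul 2)
  have a5 : Integrable (fun w => 8 * g1 w + 4 * g2 w + 4 * g3 w + 2 * g4 w + 4 * g5 w) M :=
    a4.add (h5.const_mul 4)
  have a6 : Integrable (fun w => 8 * g1 w + 4 * g2 w + 4 * g3 w + 2 * g4 w + 4 * g5 w
    + 2 * g6 w) M := a5.add (h6.const_mul 2)
  have a7 : Integrable (fun w => 8 * g1 w + 4 * g2 w + 4 * g3 w + 2 * g4 w + 4 * g5 w
    + 2 * g6 w + 2 * g7 w) M := a6.add (h7.const_mul 2)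
  refine ⟨(a7.add h8).div_const 27, ?_⟩
  rw [integral_div, integral_add a7 h8, integral_add a6 (h7.const_mul 2),
    integral_add a5 (h6.const_mul 2), integral_add a4 (h5.const_mul 4),
    integral_add a3 (h4.const_mul 2), integral_add a2 (h3.const_mul 4),
    integral_add a1 (h2.const_mul 4)]
  simp only [integral_const_mul]

lemma mu3_conv (ν : Measure ℝ) [IsProbabilityMeasure ν] (h : Integrable (fun x : ℝ => x) ν)
    (s t : ℝ) : mu3 ((two s t).conv ν) = ∫ w, (8 * m s s s w + 4 * m s s t w + 4 * m s t s w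
      + 2 * m s t t w + 4 * m t s s w + 2 * m t s t w + 2 * m t t s w + m t t t w) / 27
        ∂(ν.prod (ν.prod ν)) := by
  have hp := piece_int ν h
  have hm := int_m ν h
  have e2 : (2 / 3 : ℝ≥0∞) ≠ ⊤ := by simp [ENNReal.div_eq_top]
  have e1 : (1 / 3 : ℝ≥0∞) ≠ ⊤ := by simp
  unfold mu3
  rw [conv_eq, ex4, (comb8 _ _ _ _ _ _ _ _ _ (hm s s s) (hm s s t) (hm s t s) (hm s t t)
    (hm t s s) (hm t s t) (hm t t s) (hm t t t)).2]
  simp only [smul_add]
  rw [split8 _ _ _ _ _ _ _ _ _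
    ((((hp s s s).smul_measure e2).smul_measure e2).smul_measure e2)
    ((((hp s s t).smul_measure e1).smul_measure e2).smul_measure e2)
    ((((hp s t s).smul_measure e2).smul_measure e1).smul_measure e2)
    ((((hp s t t).smul_measure e1).smul_measure e1).smul_measure e2)
    ((((hp t s s).smul_measure e2).smul_measure e2).smul_measure e1)
    ((((hp t s t).smul_measure e1).smul_measure e2).smul_measure e1)
    ((((hp t t s).smul_measure e2).smul_measure e1).smul_measure e1)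
    ((((hp t t t).smul_measure e1).smul_measure e1).smul_measure e1)]
  simp only [integral_smul_measure, piece]
  simp
  ring

lemma key (w : ℝ × ℝ × ℝ) :
    (8 * m 1 1 1 w + 4 * m 1 1 (-2) w + 4 * m 1 (-2) 1 w + 2 * m 1 (-2) (-2) w
      + 4 * m (-2) 1 1 w + 2 * m (-2) 1 (-2) w + 2 * m (-2) (-2) 1 w + m (-2) (-2) (-2) w) / 27 ≤
    (8 * m (-1) (-1) (-1) w + 4 * m (-1) (-1) 2 w + 4 * m (-1) 2 (-1) w + 2 * m (-1) 2 2 w
      + 4 * m 2 (-1) (-1) w + 2 * m 2 (-1) 2 w + 2 * m 2 2 (-1) w + m 2 2 2 w) / 27 := by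
  obtain ⟨x, y, z⟩ := w
  have sh : ∀ a b c d : ℝ, m (a + d) (b + d) (c + d) (x, y, z) = m a b c (x, y, z) + d := by
    intro a b c d
    simp only [m, ← min_add_add_right]
    congr 1
    · ring
    · congr 1 <;> ring
  have le : ∀ a b c : ℝ, m a b c (x, y, z) ≤ a + x ∧ m a b c (x, y, z) ≤ b + y ∧
      m a b c (x, y, z) ≤ c + z := fun a b c =>
    ⟨min_le_left _ _, (min_le_right _ _).trans (min_le_left _ _),
      (min_le_right _ _).trans (min_le_right _ _)⟩
  have ca : ∀ a b c : ℝ, m a b c (x, y, z) = a + x ∨ m a b c (x, y, z) = b + y ∨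
      m a b c (x, y, z) = c + z := fun a b c => by
    unfold m
    rcases min_choice (a + x) (min (b + y) (c + z)) with h | h
    · exact Or.inl h
    · rcases min_choice (b + y) (c + z) with h' | h'
      · exact Or.inr (Or.inl (h.trans h'))
      · exact Or.inr (Or.inr (h.trans h'))
  have s1 := sh (-1) (-1) (-1) 2
  have s2 := sh (-1) (-1) (-1) (-1)
  have s3 := sh (-1) (-1) (-1) 3
  have s4 := sh (-1) (-1) 2 (-1)
  have s5 := sh (-1) 2 (-1) (-1)
  have s6 := sh 2 (-1) (-1) (-1)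
  have s7 := sh (-1) 2 2 (-1)
  have s8 := sh 2 (-1) 2 (-1)
  have s9 := sh 2 2 (-1) (-1)
  norm_num at s1 s2 s3 s4 s5 s6 s7 s8 s9
  obtain ⟨a1, a2, a3⟩ := le (-1) (-1) 2
  obtain ⟨b1, b2, b3⟩ := le (-1) 2 (-1)
  obtain ⟨c1, c2, c3⟩ := le 2 (-1) (-1)
  obtain ⟨d1, d2, d3⟩ := le (-1) 2 2
  obtain ⟨e1, e2, e3⟩ := le 2 (-1) 2
  obtain ⟨f1, f2, f3⟩ := le 2 2 (-1)
  rcases ca (-1) (-1) 2 with p | p | p <;> rcases ca (-1) 2 (-1) with q | q | q <;>
    rcases ca 2 (-1) (-1) with r | r | r <;> linarith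

lemma mu3_le (ν : Measure ℝ) [IsProbabilityMeasure ν] (h : Integrable (fun x : ℝ => x) ν) :
    mu3 ((two 1 (-2)).conv ν) ≤ mu3 ((two (-1) 2).conv ν) := by
  have hm := int_m ν h
  rw [mu3_conv ν h, mu3_conv ν h]
  exact integral_mono
    (comb8 _ _ _ _ _ _ _ _ _ (hm _ _ _) (hm _ _ _) (hm _ _ _) (hm _ _ _) (hm _ _ _) (hm _ _ _)
      (hm _ _ _) (hm _ _ _)).1
    (comb8 _ _ _ _ _ _ _ _ _ (hm _ _ _) (hm _ _ _) (hm _ _ _) (hm _ _ _) (hm _ _ _) (hm _ _ _)
      (hm _ _ _) (hm _ _ _)).1 key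

lemma mu1_two (s t : ℝ) : mu1 (two s t) = (2 * s + t) / 3 := by
  have e2 : (2 / 3 : ℝ≥0∞) ≠ ⊤ := by simp [ENNReal.div_eq_top]
  have e1 : (1 / 3 : ℝ≥0∞) ≠ ⊤ := by simp
  unfold mu1 two
  rw [integral_add_measure ((integrable_dirac (by simp)).smul_measure e2)
    ((integrable_dirac (by simp)).smul_measure e1)]
  simp
  ring

lemma mu2_two (s t : ℝ) : mu2 (two s t) = (4 * s + 4 * min s t + t) / 9 := by
  have e2 : (2 / 3 : ℝ≥0∞) ≠ ⊤ := by simp [ENNReal.div_eq_top]
  have e1 : (1 / 3 : ℝ≥0∞) ≠ ⊤ := by simp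
  unfold mu2 two
  rw [Measure.prod_add]
  repeat rw [Measure.prod_smul_right]
  repeat rw [Measure.add_prod]
  repeat rw [Measure.prod_smul_left]
  simp only [smul_add, Measure.dirac_prod_dirac]
  repeat rw [integral_add_measure]
  · simp [min_comm t s]
    ring
  all_goals
    repeat' first | exact integrable_dirac (by simp) | apply Integrable.add_measure | apply Integrable.smul_measure | exact e1 | exact e2

lemma mu3_two (s t : ℝ) : mu3 (two s t) = (8 * s + 18 * min s t + t) / 27 := by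
  haveI : SFinite (two s t) := by unfold two; infer_instance
  have := mu3_conv (Measure.dirac 0) (integrable_dirac (by simp)) s t
  rw [Measure.conv_dirac_zero] at this
  rw [this]
  simp only [Measure.dirac_prod_dirac, integral_dirac, m]
  rcases le_total s t with h | h <;> simp [h] <;> ring

/-- The quantile function `F^{-1}` of the law `ν`. -/
noncomputable def Q (ν : Measure ℝ) (p : ℝ) : ℝ := sInf {x | p ≤ cdf ν x}

lemma gal (ν : Measure ℝ) {p : ℝ} (hp : p ∈ Ioo (0 : ℝ) 1) (t : ℝ) : Q ν p ≤ t ↔ p ≤ cdf ν t := by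
  have ne : {x | p ≤ cdf ν x}.Nonempty :=
    ((tendsto_cdf_atTop ν).eventually (lt_mem_nhds hp.2)).exists.imp fun x hx => hx.le
  have bd : BddBelow {x | p ≤ cdf ν x} := by
    obtain ⟨b, hb⟩ := eventually_atBot.1 ((tendsto_cdf_atBot ν).eventually (gt_mem_nhds hp.1))
    refine ⟨b, fun x hx => ?_⟩
    by_contra h
    exact absurd hx (not_le.2 (hb x (not_le.1 h).le))
  refine ⟨fun h => ?_, fun h => csInf_le bd h⟩
  have hc : ContinuousWithinAt (cdf ν) (Ioi t) t :=
    ((cdf ν).right_continuous t).mono Ioi_subset_Ici_self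
  refine ge_of_tendsto hc (eventually_nhdsWithin_of_forall fun s hs => ?_)
  obtain ⟨x, hx, hxs⟩ := exists_lt_of_csInf_lt ne (lt_of_le_of_lt h hs)
  exact le_trans hx (monotone_cdf ν hxs.le)

noncomputable def L : Measure ℝ := volume.restrict (Ioo (0 : ℝ) 1)

lemma Lp : IsProbabilityMeasure L := ⟨by simp [L]⟩

open Classical in
noncomputable def q (ν : Measure ℝ) (p : ℝ) : ℝ := if p ∈ Ioo (0 : ℝ) 1 then Q ν p else 0

lemma q_meas (ν : Measure ℝ) : Measurable (q ν) := by
  refine measurable_of_Iic fun t => ?_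
  have : q ν ⁻¹' Iic t = (Ioo 0 1 ∩ Iic (cdf ν t)) ∪ ((Ioo 0 1)ᶜ ∩ {_p | 0 ≤ t}) := by
    ext p
    by_cases hp : p ∈ Ioo (0 : ℝ) 1
    · simp only [mem_preimage, mem_Iic, q, if_true, gal ν hp, mem_union, mem_inter_iff, hp,
        mem_compl_iff, not_true, true_and, false_and, or_false]
    · simp only [mem_preimage, mem_Iic, q, if_false, mem_union, mem_inter_iff, hp,
        mem_compl_iff, not_false_iff, true_and, false_and, false_or, mem_setOf_eq]
  rw [this]
  exact (measurableSet_Ioo.inter measurableSet_Iic).union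
    (measurableSet_Ioo.compl.inter (MeasurableSet.const _))

lemma q_mono (ν : Measure ℝ) {a b : ℝ} (ha : a ∈ Ioo (0 : ℝ) 1) (hb : b ∈ Ioo (0 : ℝ) 1)
    (h : a ≤ b) : q ν a ≤ q ν b := by
  simp only [q, if_pos ha, if_pos hb]
  exact (gal ν ha _).2 (h.trans ((gal ν hb _).1 le_rfl))

lemma mapq (ν : Measure ℝ) [IsProbabilityMeasure ν] : L.map (q ν) = ν := by
  haveI := Lp
  refine Measure.ext_of_Iic _ _ fun t => ?_
  rw [Measure.map_apply (q_meas ν) measurableSet_Iic, L, Measure.restrict_apply' measurableSet_Ioo,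
    ← ofReal_cdf]
  apply le_antisymm
  · refine (measure_mono (t := Icc 0 (cdf ν t)) fun p hp => ?_).trans (by simp)
    have h1 := hp.1
    simp only [mem_preimage, mem_Iic, q, if_pos hp.2, gal ν hp.2] at h1
    exact ⟨hp.2.1.le, h1⟩
  · refine le_trans (by simp) (measure_mono (s := Ioo 0 (cdf ν t)) fun p hp => ?_)
    have h2 : p ∈ Ioo (0 : ℝ) 1 := ⟨hp.1, hp.2.trans_le (cdf_le_one ν t)⟩
    refine ⟨?_, h2⟩
    simp only [mem_preimage, mem_Iic, q, if_pos h2, gal ν h2]
    exact hp.2.le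

lemma aeL {P : ℝ → Prop} (h : ∀ x ∈ Ioo (0 : ℝ) 1, P x) : ∀ᵐ x ∂L, P x :=
  ae_restrict_of_forall_mem measurableSet_Ioo h

lemma Lint (f : ℝ → ℝ) : ∫ x, f x ∂L = ∫ x in (0 : ℝ)..1, f x := by
  rw [intervalIntegral.integral_of_le zero_le_one, integral_Ioc_eq_integral_Ioo, L]

lemma lo (f : ℝ → ℝ) {p : ℝ} (hp : p ∈ Ioo (0 : ℝ) 1) :
    ∫ u, (if u ≤ p then f u else 0) ∂L = ∫ u in (0 : ℝ)..p, f u := by
  have : (fun u => if u ≤ p then f u else 0) = (Iic p).indicator f := by
    ext u; simp [indicator]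
  rw [this, integral_indicator measurableSet_Iic, L, Measure.restrict_restrict measurableSet_Iic,
    intervalIntegral.integral_of_le hp.1.le]
  congr 2
  ext u
  exact ⟨fun h => ⟨h.2.1, h.1⟩, fun h => ⟨h.2, h.1, h.2.trans_lt hp.2⟩⟩

lemma hi (f : ℝ → ℝ) {p : ℝ} (hp : p ∈ Ioo (0 : ℝ) 1) :
    ∫ u, (if p ≤ u then f u else 0) ∂L = ∫ u in p..1, f u := by
  have : (fun u => if p ≤ u then f u else 0) = (Ici p).indicator f := by
    ext u; simp [indicator]
  rw [this, integral_indicator measurableSet_Ici, L, Measure.restrict_restrict measurableSet_Ici,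
    intervalIntegral.integral_of_le hp.2.le, integral_Ioc_eq_integral_Ioo,
    ← integral_Ico_eq_integral_Ioo]
  congr 2
  ext u
  exact ⟨fun h => ⟨h.1, h.2.2⟩, fun h => ⟨h.1, hp.1.trans_le h.1, h.2⟩⟩

lemma fub (f g : ℝ → ℝ) (hf : Integrable f L) (hg : Integrable g L) :
    ∫ p, g p * (∫ u in (0 : ℝ)..p, f u) ∂L = ∫ u, f u * (∫ p in u..1, g p) ∂L := by
  haveI := Lp
  have hi2 : Integrable (Function.uncurry fun p u : ℝ => if u ≤ p then g p * f u else 0)
      (L.prod L) := by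
    have : (Function.uncurry fun p u : ℝ => if u ≤ p then g p * f u else 0)
        = {w : ℝ × ℝ | w.2 ≤ w.1}.indicator fun w => g w.1 * f w.2 := by
      ext w; simp [indicator, Function.uncurry]
    rw [this]
    exact (hg.mul_prod hf).indicator (measurableSet_le measurable_snd measurable_fst)
  have := integral_integral_swap hi2
  rw [integral_congr_ae (aeL fun p hp => lo (fun u => g p * f u) hp),
    integral_congr_ae (aeL fun u hu => hi (fun p => g p * f u) hu)] at this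
  simp only [intervalIntegral.integral_const_mul, intervalIntegral.integral_mul_const] at this
  rw [this]
  simp only [mul_comm]

lemma onI {f : ℝ → ℝ} (hf : Integrable f L) : IntegrableOn f (Icc (0 : ℝ) 1) :=
  (integrableOn_Icc_iff_integrableOn_Ioo).2 hf

lemma contL {g : ℝ → ℝ} (hg : ContinuousOn g (Icc (0 : ℝ) 1)) : Integrable g L :=
  (hg.integrableOn_Icc).mono_set Ioo_subset_Icc_self

lemma mulc {f g : ℝ → ℝ} (hf : Integrable f L) (hg : Continuous g) :
    Integrable (fun u => f u * g u) L :=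
  ((onI hf).mul_continuousOn hg.continuousOn isCompact_Icc).mono_set Ioo_subset_Icc_self

lemma prim {f : ℝ → ℝ} (hf : Integrable f L) :
    ContinuousOn (fun p => ∫ u in (0 : ℝ)..p, f u) (Icc (0 : ℝ) 1) := by
  have := intervalIntegral.continuousOn_primitive_interval (a := 0) (b := 1) (μ := volume) (f := f)
    (by rw [uIcc_of_le zero_le_one]; exact onI hf)
  rwa [uIcc_of_le zero_le_one] at this

lemma ii {f : ℝ → ℝ} (hf : Integrable f L) {a b : ℝ} (ha : a ∈ Icc (0 : ℝ) 1)
    (hb : b ∈ Icc (0 : ℝ) 1) : IntervalIntegrable f volume a b :=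
  ((onI hf).mono_set (uIcc_subset_Icc ha hb)).intervalIntegrable

lemma intmin {f : ℝ → ℝ} (hf : Integrable f L) (a : ℝ) :
    Integrable (fun u => f (min a u)) L := by
  classical
  haveI := Lp
  have : (fun u => f (min a u)) = (Iic a).piecewise f (fun _ => f a) := by
    ext u
    by_cases h : u ≤ a
    · simp [piecewise, h]
    · simp [piecewise, h, (not_le.1 h).le]
  rw [this]
  exact Integrable.piecewise measurableSet_Iic hf.integrableOn (integrable_const _).integrableOn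

lemma G {f h H : ℝ → ℝ} (hf : Integrable f L) (hh : Continuous h) (cH : Continuous H)
    (hH : ∀ a, ∫ u in a..1, h u = H a) :
    ∫ a, ∫ u, f (min a u) * h u ∂L ∂L = ∫ u, f u * (h u * (1 - u) + H u) ∂L := by
  haveI := Lp
  have inner : ∀ a ∈ Ioo (0 : ℝ) 1, ∫ u, f (min a u) * h u ∂L
      = (∫ u in (0 : ℝ)..a, f u * h u) + f a * H a := by
    intro a ha
    have hi1 := mulc (intmin hf a) hh
    have ha' : a ∈ Icc (0 : ℝ) 1 := Ioo_subset_Icc_self ha
    rw [Lint, ← intervalIntegral.integral_add_adjacent_intervals (b := a)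
      (ii hi1 (by simp) ha') (ii hi1 ha' (by simp)), ← hH,
      ← intervalIntegral.integral_const_mul]
    congr 1
    · refine intervalIntegral.integral_congr fun u hu => ?_
      rw [uIcc_of_le ha.1.le] at hu
      simp only [min_eq_right hu.2]
    · refine intervalIntegral.integral_congr fun u hu => ?_
      rw [uIcc_of_le ha.2.le] at hu
      simp only [min_eq_left hu.1]
  have h1 := fub (fun u => f u * h u) (fun _ => 1) (mulc hf hh) (integrable_const _)
  simp only [one_mul, intervalIntegral.integral_const, smul_eq_mul, mul_one] at h1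
  rw [integral_congr_ae (aeL inner), integral_add (contL (prim (mulc hf hh))) (mulc hf cH), h1,
    ← integral_add (mulc (mulc hf hh) (by fun_prop)) (mulc hf cH)]
  congr 1
  ext u
  ring

lemma q_int (ν : Measure ℝ) [IsProbabilityMeasure ν] (h : Integrable (fun x : ℝ => x) ν) :
    Integrable (q ν) L := by
  rw [← mapq ν, integrable_map_measure (by fun_prop) (q_meas ν).aemeasurable] at h
  exact h

lemma q_min (ν : Measure ℝ) {a b : ℝ} (ha : a ∈ Ioo (0 : ℝ) 1) (hb : b ∈ Ioo (0 : ℝ) 1) :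
    min (q ν a) (q ν b) = q ν (min a b) := by
  rcases le_total a b with h | h
  · rw [min_eq_left h, min_eq_left (q_mono ν ha hb h)]
  · rw [min_eq_right h, min_eq_right (q_mono ν hb ha h)]

lemma B (ν : Measure ℝ) [IsProbabilityMeasure ν] (h : Integrable (fun x : ℝ => x) ν) :
    ∫ w : ℝ × ℝ × ℝ, min w.1 (min w.2.1 w.2.2) ∂(ν.prod (ν.prod ν))
      = ∫ u, q ν u * (3 * (1 - u) ^ 2) ∂L := by
  haveI := Lp
  have hq := q_int ν h
  have hm := q_meas ν
  have e : ν.prod (ν.prod ν) = (L.prod (L.prod L)).map (Prod.map (q ν) (Prod.map (q ν) (q ν))) := by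
    rw [← Measure.map_prod_map _ _ hm (hm.prodMap hm), ← Measure.map_prod_map _ _ hm hm, mapq]
  rw [e, integral_map (hm.prodMap (hm.prodMap hm)).aemeasurable (by fun_prop)]
  have i2 : Integrable (fun w : ℝ × ℝ => min (q ν w.1) (q ν w.2)) (L.prod L) :=
    (hq.comp_fst L).inf (hq.comp_snd L)
  have i3 : Integrable (fun w : ℝ × ℝ × ℝ => min (q ν w.1) (min (q ν w.2.1) (q ν w.2.2)))
      (L.prod (L.prod L)) := (hq.comp_fst _).inf (i2.comp_snd L)
  change ∫ w : ℝ × ℝ × ℝ, min (q ν w.1) (min (q ν w.2.1) (q ν w.2.2)) ∂(L.prod (L.prod L)) = _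
  rw [integral_prod _ i3]
  have inner : ∀ a ∈ Ioo (0 : ℝ) 1, ∫ w : ℝ × ℝ, min (q ν a) (min (q ν w.1) (q ν w.2)) ∂(L.prod L)
      = ∫ u, q ν (min a u) * (2 * (1 - u)) ∂L := by
    intro a ha
    have i4 : Integrable (fun w : ℝ × ℝ => min (q ν a) (min (q ν w.1) (q ν w.2))) (L.prod L) :=
      (integrable_const _).inf i2
    have g := G (f := fun u => q ν (min a u)) (h := fun _ => 1) (H := fun u => 1 - u)
      (intmin hq a) continuous_const (by fun_prop) (fun a => by simp)
    rw [integral_prod _ i4]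
    refine Eq.trans (integral_congr_ae (aeL fun b hb => integral_congr_ae (aeL fun c hc => ?_)))
      (g.trans ?_)
    · have hbc : min b c ∈ Ioo (0 : ℝ) 1 := ⟨lt_min hb.1 hc.1, (min_le_left _ _).trans_lt hb.2⟩
      simp only [q_min ν hb hc, q_min ν ha hbc, mul_one]
    · congr 1
      ext u
      ring
  have g := G (f := q ν) (h := fun u => 2 * (1 - u)) (H := fun u => (1 - u) ^ 2)
    hq (by fun_prop) (by fun_prop) (fun a => by
      rw [intervalIntegral.integral_const_mul, intervalIntegral.integral_sub (by simp) (by simp)]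
      simp
      ring)
  refine Eq.trans (integral_congr_ae (aeL inner)) (g.trans ?_)
  congr 1
  ext u
  ring

lemma C {f : ℝ → ℝ} (hf : Integrable f L) :
    ∫ p in (0 : ℝ)..1, (∫ v in (0 : ℝ)..p, ∫ u in (0 : ℝ)..v, f u)
      = (∫ u, f u * (3 * (1 - u) ^ 2) ∂L) / 6 := by
  haveI := Lp
  have h1 := fub (fun v => ∫ u in (0 : ℝ)..v, f u) (fun _ => 1) (contL (prim hf))
    (integrable_const _)
  have h2 := fub f (fun p => 1 - p) hf (contL (by fun_prop))
  simp only [one_mul, intervalIntegral.integral_const, smul_eq_mul, mul_one] at h1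
  rw [← Lint, h1, ← integral_div]
  refine Eq.trans (integral_congr_ae (aeL fun p _ => mul_comm _ _)) (h2.trans ?_)
  congr 1
  ext u
  rw [intervalIntegral.integral_sub (by simp) (by simp)]
  simp
  ring

/-- `F^{[-2]}`. -/
noncomputable def I2 (ν : Measure ℝ) (p : ℝ) : ℝ := ∫ u in (0 : ℝ)..p, Q ν u

/-- `F^{[-3]}`. -/
noncomputable def I3 (ν : Measure ℝ) (p : ℝ) : ℝ := ∫ u in (0 : ℝ)..p, I2 ν u

/-- Strict third-degree inverse stochastic dominance `μ <_3^- ν` between laws. -/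
def Lt3 (μ ν : Measure ℝ) : Prop :=
  (∀ p ∈ Ioo (0 : ℝ) 1, I3 μ p ≤ I3 ν p) ∧ ∃ p ∈ Ioo (0 : ℝ) 1, I3 μ p < I3 ν p

lemma I3_eq (ν : Measure ℝ) {p : ℝ} (hp : p ∈ Ioo (0 : ℝ) 1) :
    I3 ν p = ∫ v in (0 : ℝ)..p, ∫ u in (0 : ℝ)..v, q ν u := by
  refine intervalIntegral.integral_congr fun v hv => ?_
  rw [uIcc_of_le hp.1.le] at hv
  refine intervalIntegral.integral_congr_ae (ae_of_all _ fun u hu => ?_)
  rw [uIoc_of_le hv.1] at hu
  have : u ∈ Ioo (0 : ℝ) 1 := ⟨hu.1, (hu.2.trans hv.2).trans_lt hp.2⟩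
  simp only [q, if_pos this]

lemma link (μ ν : Measure ℝ) [IsProbabilityMeasure μ] [IsProbabilityMeasure ν]
    (hμ : Integrable (fun x : ℝ => x) μ) (hν : Integrable (fun x : ℝ => x) ν) (h : Lt3 μ ν) :
    mu3 μ < mu3 ν := by
  obtain ⟨hle, c, hc, hlt⟩ := h
  have c1 := prim (contL (prim (q_int μ hμ)))
  have c2 := prim (contL (prim (q_int ν hν)))
  have hcl : ∀ x ∈ closure (Ioo (0 : ℝ) 1), (∫ v in (0 : ℝ)..x, ∫ u in (0 : ℝ)..v, q μ u)
      ≤ ∫ v in (0 : ℝ)..x, ∫ u in (0 : ℝ)..v, q ν u :=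
    le_on_closure (fun x hx => by rw [← I3_eq μ hx, ← I3_eq ν hx]; exact hle x hx)
      (by rwa [closure_Ioo zero_ne_one]) (by rwa [closure_Ioo zero_ne_one])
  rw [closure_Ioo zero_ne_one] at hcl
  have := intervalIntegral.integral_lt_integral_of_continuousOn_of_le_of_exists_lt zero_lt_one
    c1 c2 (fun x hx => hcl x (Ioc_subset_Icc_self hx))
    ⟨c, Ioo_subset_Icc_self hc, by rwa [← I3_eq μ hc, ← I3_eq ν hc]⟩
  rw [C (q_int μ hμ), C (q_int ν hν), ← B μ hμ, ← B ν hν] at this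
  unfold mu3
  linarith

lemma two_prob (s t : ℝ) : IsProbabilityMeasure (two s t) := by
  refine ⟨?_⟩
  simp only [two, Measure.add_apply, Measure.smul_apply, measure_univ, smul_eq_mul, mul_one]
  rw [← ENNReal.add_div, ENNReal.div_eq_one_iff (by simp) (by simp)]
  norm_num

lemma conv_int (ν : Measure ℝ) [IsProbabilityMeasure ν] (h : Integrable (fun x : ℝ => x) ν)
    (s t : ℝ) : Integrable (fun x : ℝ => x) ((two s t).conv ν) := by
  have e2 : (2 / 3 : ℝ≥0∞) ≠ ⊤ := by simp [ENNReal.div_eq_top]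
  have e1 : (1 / 3 : ℝ≥0∞) ≠ ⊤ := by simp
  have h1 : ∀ a : ℝ, Integrable (fun x : ℝ => x) (ν.map fun y => a + y) := fun a => by
    rw [integrable_map_measure (by fun_prop) (by fun_prop)]
    exact (integrable_const a).add h
  rw [conv_eq]
  exact ((h1 s).smul_measure e2).add_measure ((h1 t).smul_measure e1)

theorem result :
    mu1 (two (-1) 2) = mu1 (two 1 (-2)) ∧ mu2 (two (-1) 2) = mu2 (two 1 (-2)) ∧
    mu3 (two 1 (-2)) < mu3 (two (-1) 2) ∧
    ∀ ν : Measure ℝ, IsProbabilityMeasure ν → Integrable (fun x : ℝ => x) ν →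
      ¬ Lt3 ((two (-1) 2).conv ν) ((two 1 (-2)).conv ν) := by
  refine ⟨?_, ?_, ?_, fun ν _ h hl => ?_⟩
  · rw [mu1_two, mu1_two]; norm_num
  · rw [mu2_two, mu2_two]; norm_num
  · rw [mu3_two, mu3_two]; norm_num
  · haveI := two_prob (-1) 2
    haveI := two_prob 1 (-2)
    exact absurd (link _ _ (conv_int ν h _ _) (conv_int ν h _ _) hl) (not_lt.2 (mu3_le ν h))

end Pool.Agent.Results.MP_dbe012_pr.No
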